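import Mathlib
import Pool.Agent.H16.Coset3
set_option autoImplicit false
namespace Pool.Agent.Results.MP_e825aa_al.Yes

/-- `G/H` is an irreducible coset space -/
def Irred {G : Type} [Group G] [TopologicalSpace G] (H : Subgroup G) : Prop :=
  IsClosed (H : Set G) ∧ H ≠ ⊤ ∧ ¬ ∃ K : Subgroup G, IsClosed (K : Set G) ∧ H < K ∧ K < ⊤

/-- `G/H` is faithful: the intersection of the conjugates of `H` is trivial -/
def Faithful {G : Type} [Group G] (H : Subgroup G) : Prop :=
  ∀ x : G, (∀ g : G, g⁻¹ * x * g ∈ H) → x = 1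

/-- nontrivial closed normal subgroup -/
def NCN {G : Type} [Group G] [TopologicalSpace G] (M : Subgroup G) : Prop :=
  IsClosed (M : Set G) ∧ M.Normal ∧ M ≠ ⊥

/-- minimal among the nontrivial closed normal subgroups -/
def MinNCN {G : Type} [Group G] [TopologicalSpace G] (M : Subgroup G) : Prop :=
  NCN M ∧ ∀ P : Subgroup G, NCN P → P ≤ M → P = M

theorem result : ∃ (G : Type) (_ : Group G) (_ : TopologicalSpace G) (_ : IsTopologicalGroup G)
    (H : Subgroup G), Irred H ∧ Faithful H ∧ {M : Subgroup G | MinNCN M}.Infinite := by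
  obtain ⟨G, i1, i2, i3, H, A, h1, h2, h3, h4, h5, h6⟩ := Pool.Agent.H16.Coset3.main
  refine ⟨G, i1, i2, i3, H, ⟨h1, h2, fun ⟨K, a, b, c⟩ => c.ne (h3 K a b)⟩, fun x hx => ?_,
    Set.infinite_of_injective_forall_mem h5 fun i => ⟨⟨(h6 i).1, (h6 i).2.1, (h6 i).2.2.1⟩,
      fun P hP => (h6 i).2.2.2 P hP.2.1 hP.2.2⟩⟩
  have : x ∈ H.normalCore := fun g => by simpa using hx g⁻¹
  rwa [h4] at this

end Pool.Agent.Results.MP_e825aa_al.Yes
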